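import Pool.Agent.H877.TP.Top3

set_option autoImplicit false

/-!
Every nonsingular dividing real plane curve admits a total pencil (question Q1),
which moreover can be chosen without base points on the curve.
-/

namespace Pool.Agent.Results.MP_42957e_ag.TotalPencil
open MvPolynomial

/-- the complex projective plane -/
abbrev CP2 := Projectivization ℂ (Fin 3 → ℂ)

/-- the usual (quotient) topology of the complex projective plane -/
@[instance_reducible] noncomputable def cp2Top : TopologicalSpace CP2 :=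
  TopologicalSpace.coinduced
    (fun v : {v : Fin 3 → ℂ // v ≠ 0} => Projectivization.mk ℂ v.1 v.2) inferInstance

/-- the complex zero set of a real form -/
def zeros (G : MvPolynomial (Fin 3) ℝ) : Set CP2 := {P | aeval P.rep G = 0}

/-- the real projective plane inside the complex one -/
def RP2 : Set CP2 :=
  {P | ∃ (v : Fin 3 → ℝ) (h : (fun i => (v i : ℂ)) ≠ 0), P = Projectivization.mk ℂ (fun i => (v i : ℂ)) h}

/-- the plane curve `F = 0` is nonsingular -/
def Nonsingular (F : MvPolynomial (Fin 3) ℝ) : Prop :=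
  ∀ v : Fin 3 → ℂ, v ≠ 0 → aeval v F = 0 → ∃ i, aeval v (pderiv i F) ≠ 0

/-- the curve `F = 0` is dividing: its set of nonreal points is disconnected -/
def Dividing (F : MvPolynomial (Fin 3) ℝ) : Prop :=
  ¬ @IsPreconnected CP2 cp2Top (zeros F \ RP2)

/-- the complexification of a real polynomial -/
noncomputable abbrev cx (G : MvPolynomial (Fin 3) ℝ) : MvPolynomial (Fin 3) ℂ :=
  MvPolynomial.map (algebraMap ℝ ℂ) G

/-- `G` and `H` span a pencil of degree `d`, no member of which has a common component with `F = 0` -/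
structure IsPencil (F : MvPolynomial (Fin 3) ℝ) (d : ℕ) (G H : MvPolynomial (Fin 3) ℝ) : Prop where
  homG : G.IsHomogeneous d
  homH : H.IsHomogeneous d
  noCommon : ∀ l m : ℂ, (l ≠ 0 ∨ m ≠ 0) → IsRelPrime (cx F) (C l * cx G + C m * cx H)

/-- the pencil is total: each real member meets the curve in real points only -/
def IsTotal (F G H : MvPolynomial (Fin 3) ℝ) : Prop :=
  ∀ l m : ℝ, (l ≠ 0 ∨ m ≠ 0) → zeros F ∩ zeros (C l * G + C m * H) ⊆ RP2

theorem result (m : ℕ) (hm : 1 ≤ m) (F : MvPolynomial (Fin 3) ℝ) (hF : F.IsHomogeneous m)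
    (hns : Nonsingular F) (hdiv : Dividing F) :
    ∃ (d : ℕ) (G H : MvPolynomial (Fin 3) ℝ), 1 ≤ d ∧ IsPencil F d G H ∧ IsTotal F G H ∧
      zeros F ∩ zeros G ∩ zeros H = ∅ := by
  have hae : ∀ (v : Fin 3 → ℂ) (G : MvPolynomial (Fin 3) ℝ), aeval v G = eval v (H877.TP.cxf G) := by
    intro v G
    rw [aeval_def, eval₂_eq_eval_map]
  have hns' : ∀ v : Fin 3 → ℂ, v ≠ 0 → eval v (H877.TP.cxf F) = 0 →
      ∃ i, eval v (pderiv i (H877.TP.cxf F)) ≠ 0 := by
    intro v hv h0
    obtain ⟨i, hi⟩ := hns v hv (by rw [hae]; exact h0)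
    refine ⟨i, ?_⟩
    rw [hae] at hi
    rwa [pderiv_map]
  let Cv := H877.TP.mkCurve F m hm hF hns'
  have hreal : ∀ P : CP2, P ∈ RP2 ↔ H877.TP.Rl P.rep := fun P => (H877.TP.Rl_rep_iff P).symm
  have hset : zeros F \ RP2 = {P | eval P.rep Cv.F = 0 ∧ ¬ H877.TP.Rl P.rep} := by
    ext P
    rw [Set.mem_sdiff, hreal]
    exact and_congr (by unfold zeros; rw [Set.mem_ofPred_eq, hae]; rfl) Iff.rfl
  obtain ⟨A, B, hAB⟩ := H877.TP.exists_sep (C := Cv) (H877.TP.mkCurve_real F m hm hF hns') (by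
    rw [← hset]; exact hdiv)
  obtain ⟨d, G, H, hd, hG, hH, hnc, htot, hbp⟩ := H877.TP.exists_pencil hAB
  have hon : ∀ P : CP2, P ∈ zeros F → Cv.On P.rep := fun P hP =>
    ⟨P.rep_nonzero, by
      have : aeval P.rep F = 0 := hP
      rwa [hae] at this⟩
  refine ⟨d, G, H, hd, ⟨hG, hH, fun l m hlm => ?_⟩, ?_, ?_⟩
  · have hirr : Irreducible (cx F) := Cv.prime.irreducible
    exact hirr.isRelPrime_iff_not_dvd.2 (hnc l m hlm)
  · rintro l m hlm P ⟨hP1, hP2⟩
    rw [hreal]
    refine htot l m hlm _ (hon P hP1) ?_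
    have : aeval P.rep (C l * G + C m * H) = 0 := hP2
    rwa [hae] at this
  · rw [Set.eq_empty_iff_forall_notMem]
    rintro P ⟨⟨hP, hPG⟩, hPH⟩
    refine hbp _ (hon P hP) ⟨?_, ?_⟩
    · have : aeval P.rep G = 0 := hPG
      rwa [hae] at this
    · have : aeval P.rep H = 0 := hPH
      rwa [hae] at this

end Pool.Agent.Results.MP_42957e_ag.TotalPencil
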